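import Pool.Agent.H373R2.T7.FundC

set_option autoImplicit false

/-! The number of primes `p` at which a polynomial has no small prime factor. -/

namespace Pool.Agent.Helper32K9.QC

open Finset Filter Pool.Agent.H373R2.T7

/-- the value of a polynomial -/
def vl {d : ℕ} (P : Fin (d + 1) → ℤ) (n : ℕ) : ℤ := ∑ j, P j * (n : ℤ) ^ (j : ℕ)

lemma vl_per {d : ℕ} (P : Fin (d + 1) → ℤ) (p n : ℕ) : (p : ℤ) ∣ vl P n ↔ (p : ℤ) ∣ vl P (n % p) := by
  have h : (p : ℤ) ∣ vl P n - vl P (n % p) := by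
    unfold vl
    rw [← sum_sub_distrib]
    refine dvd_sum fun j _ => ?_
    rw [← mul_sub]
    refine Dvd.dvd.mul_left ?_ _
    refine dvd_trans ?_ (sub_dvd_pow_sub_pow _ _ _)
    have : (n : ℤ) - ((n % p : ℕ) : ℤ) = p * ((n / p : ℕ) : ℤ) := by
      have := Nat.div_add_mod n p
      have h2 : (n : ℤ) = p * ((n / p : ℕ) : ℤ) + ((n % p : ℕ) : ℤ) := by exact_mod_cast this.symm
      linarith
    rw [this]
    exact Dvd.intro _ rfl
  constructor
  · intro h1
    have := dvd_sub h1 h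
    rwa [sub_sub_cancel] at this
  · intro h1
    have := dvd_add h h1
    rwa [sub_add_cancel] at this

lemma roots_le {d : ℕ} (P : Fin (d + 1) → ℤ) (p : ℕ) (hp : p.Prime) (hP : ¬ ∀ j, (p : ℤ) ∣ P j) :
    ((range p).filter (fun r : ℕ => (p : ℤ) ∣ vl P r)).card ≤ d := by
  classical
  have : Fact p.Prime := ⟨hp⟩
  set f : Polynomial (ZMod p) := ∑ j : Fin (d + 1), Polynomial.C ((P j : ℤ) : ZMod p) * Polynomial.X ^ (j : ℕ) with hf
  have hc : ∀ i : Fin (d + 1), f.coeff i = ((P i : ℤ) : ZMod p) := by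
    intro i
    rw [hf, Polynomial.finsetSum_coeff, Finset.sum_eq_single i]
    · simp
    · intro b _ hb
      rw [Polynomial.coeff_C_mul, Polynomial.coeff_X_pow, if_neg (fun h => hb (Fin.ext h.symm)), mul_zero]
    · simp
  have hf0 : f ≠ 0 := by
    intro h
    apply hP
    intro j
    have := hc j
    rw [h, Polynomial.coeff_zero] at this
    exact (ZMod.intCast_zmod_eq_zero_iff_dvd _ _).1 this.symm
  have hdeg : f.natDegree ≤ d := by
    refine Polynomial.natDegree_sum_le_of_forall_le _ _ fun j _ => ?_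
    refine (Polynomial.natDegree_C_mul_X_pow_le _ _).trans ?_
    have := j.2
    omega
  refine le_trans ?_ ((Multiset.toFinset_card_le f.roots).trans ((Polynomial.card_roots' f).trans hdeg))
  refine card_le_card_of_injOn (fun r : ℕ => (r : ZMod p)) ?_ ?_
  · intro r hr
    have h1 := (mem_filter.1 (mem_coe.1 hr)).2
    refine mem_coe.2 (Multiset.mem_toFinset.2 ((Polynomial.mem_roots hf0).2 ?_))
    have h2 : ((vl P r : ℤ) : ZMod p) = 0 := (ZMod.intCast_zmod_eq_zero_iff_dvd _ _).2 h1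
    unfold Polynomial.IsRoot
    rw [hf, Polynomial.eval_finsetSum, ← h2]
    unfold vl
    rw [Int.cast_sum]
    refine sum_congr rfl fun j _ => ?_
    simp
  · intro r hr s hs hrs
    have h1 := mem_range.1 (mem_filter.1 (mem_coe.1 hr)).1
    have h2 := mem_range.1 (mem_filter.1 (mem_coe.1 hs)).1
    have h3 := (ZMod.natCast_eq_natCast_iff' r s p).1 hrs
    rwa [Nat.mod_eq_of_lt h1, Nat.mod_eq_of_lt h2] at h3

/-- the number of the invertible zeros modulo `q` -/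
def rh {d : ℕ} (P : Fin (d + 1) → ℤ) (q : ℕ) : ℕ := ((range q).filter (fun r : ℕ => ¬ q ∣ r ∧ (q : ℤ) ∣ vl P r)).card

/-- the truncated singular series -/
noncomputable def Sg {d : ℕ} (z : ℕ) (P : Fin (d + 1) → ℤ) : ℝ :=
  ∏ q ∈ pz z, (1 - (rh P q : ℝ) / (q - 1)) / (1 - 1 / (q : ℝ))

lemma rh_full {d : ℕ} (P : Fin (d + 1) → ℤ) (q : ℕ) (hP : ∀ j, (q : ℤ) ∣ P j) : rh P q = q - 1 := by
  unfold rh
  have : (range q).filter (fun r : ℕ => ¬ q ∣ r ∧ (q : ℤ) ∣ vl P r) = Ico 1 q := by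
    ext r
    rw [mem_filter, mem_range, mem_Ico]
    constructor
    · rintro ⟨h1, h2, -⟩
      refine ⟨Nat.pos_of_ne_zero ?_, h1⟩
      rintro rfl
      exact h2 (dvd_zero _)
    · rintro ⟨h1, h2⟩
      refine ⟨h2, fun h => ?_, ?_⟩
      · have := Nat.le_of_dvd (by omega) h
        omega
      · exact dvd_sum fun j _ => (hP j).mul_right _
  rw [this, Nat.card_Ico]


lemma err_small (C : ℕ) (ε : ℝ) (hε : 0 < ε) : ∃ x0 : ℕ, 3 ≤ x0 ∧ ∀ x : ℕ, x0 ≤ x →
    1 ≤ Real.log x ∧ Real.log x ^ C * (x / Real.log x ^ (C + 2) + 2 * √(x : ℝ) * Real.log x) ≤ ε * x := by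
  have hlog : Tendsto (fun n : ℕ => Real.log n) atTop atTop := Real.tendsto_log_atTop.comp tendsto_natCast_atTop_atTop
  have e1 := hlog.eventually_ge_atTop (max 1 (2 / ε))
  have e2 := (tendsto_natCast_atTop_atTop (R := ℝ)).eventually
    ((isLittleO_log_rpow_rpow_atTop ((C + 1 : ℕ) : ℝ) (show (0 : ℝ) < 1 / 2 by norm_num)).def (show (0 : ℝ) < ε / 4 by positivity))
  obtain ⟨x0, h⟩ := (e1.and e2).exists_forall_of_atTop
  refine ⟨max x0 3, le_max_right _ _, fun x hx => ?_⟩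
  obtain ⟨h1, h2⟩ := h x ((le_max_left _ _).trans hx)
  have hx3 : (3 : ℝ) ≤ x := by exact_mod_cast (le_max_right _ _).trans hx
  have hL : 1 ≤ Real.log x := (le_max_left _ _).trans h1
  have hL2 : 2 / ε ≤ Real.log x := (le_max_right _ _).trans h1
  refine ⟨hL, ?_⟩
  rw [Real.rpow_natCast, Real.norm_of_nonneg (by positivity), Real.norm_of_nonneg (by positivity),
    ← Real.sqrt_eq_rpow] at h2
  have hx0 : (0 : ℝ) ≤ x := by linarith
  have hs := Real.mul_self_sqrt hx0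
  have hs0 := Real.sqrt_nonneg (x : ℝ)
  set L := Real.log (x : ℝ) with hLd
  have e : L ^ C * (x / L ^ (C + 2) + 2 * √(x : ℝ) * L) = x / L ^ 2 + 2 * √(x : ℝ) * L ^ (C + 1) := by
    have : L ≠ 0 := by positivity
    field_simp
    ring
  rw [e]
  have h3 : x / L ^ 2 ≤ ε / 2 * x := by
    rw [div_le_iff₀ (by positivity)]
    have h4 : 1 ≤ ε / 2 * L ^ 2 := by
      have h5 : 1 ≤ ε / 2 * L := by
        rw [div_le_iff₀ hε] at hL2
        linarith
      have : L ≤ L ^ 2 := by nlinarith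
      have := mul_le_mul_of_nonneg_left this (show 0 ≤ ε / 2 by positivity)
      linarith
    nlinarith
  have h4 : 2 * √(x : ℝ) * L ^ (C + 1) ≤ ε / 2 * x := by
    have := mul_le_mul_of_nonneg_left h2 (show 0 ≤ 2 * √(x : ℝ) by positivity)
    nlinarith
  linarith

lemma rhoA_eq {d : ℕ} (Q : ℕ → ℕ → Prop) (P : Fin (d + 1) → ℤ) (q : ℕ) (h : ∀ r, Q q r ↔ (q : ℤ) ∣ vl P r) :
    rhoA Q q = rh P q := by
  unfold rhoA rh
  congr 1
  ext r
  simp only [mem_filter, h]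

open Classical in
theorem ev (d : ℕ) (ε : ℝ) (hε : 0 < ε) : ∃ K : ℕ, 1 ≤ K ∧ ∃ x0 : ℕ, ∀ x z : ℕ, x0 ≤ z → z ^ K ≤ x →
    ∀ P : Fin (d + 1) → ℤ, ∀ X : ℕ, X ≤ x →
    |(Vz z)⁻¹ * ∑ p ∈ (pz X).filter (fun p : ℕ => ∀ q ∈ pz z, ¬ (q : ℤ) ∣ vl P p), Real.log p - Sg z P * X| ≤
      ε * (1 + Sg z P) * x := by
  obtain ⟨K, hK, hf⟩ := lam_fund (d + 1) (by omega) ε hε
  obtain ⟨C, N0, hV⟩ := Vz_low
  obtain ⟨x1, h1⟩ := hf (C + 2)
  obtain ⟨x2, hx23, h2⟩ := err_small C ε hε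
  refine ⟨K, hK, max (max N0 x1) x2, fun x z hz hzx P X hX => ?_⟩
  have hzN : N0 ≤ z := (le_max_left _ _).trans ((le_max_left _ _).trans hz)
  have hzx1 : x1 ≤ z := (le_max_right _ _).trans ((le_max_left _ _).trans hz)
  have hzx2 : x2 ≤ z := (le_max_right _ _).trans hz
  have hz3 : 3 ≤ z := hx23.trans hzx2
  have hzx' : z ≤ x := by
    calc z = z ^ 1 := (pow_one z).symm
      _ ≤ z ^ K := Nat.pow_le_pow_right (by omega) hK
      _ ≤ x := hzx
  obtain ⟨hLx, herr⟩ := h2 x (hzx2.trans hzx')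
  have hx0 : (0 : ℝ) ≤ x := Nat.cast_nonneg _
  have hVp := Vz_pos z
  have hfac : ∀ q ∈ pz z, 0 ≤ 1 - (rh P q : ℝ) / (q - 1) := by
    intro q hq
    have hq' := (mem_pz.1 hq).2
    have := (facA (fun p n : ℕ => (p : ℤ) ∣ vl P n) q hq').1
    rwa [rhoA_eq _ P q (fun _ => Iff.rfl)] at this
  have hSg : Sg z P = (Vz z)⁻¹ * ∏ q ∈ pz z, (1 - (rh P q : ℝ) / (q - 1)) := by
    unfold Sg Vz
    rw [prod_div_distrib, div_eq_inv_mul]
  have hPi0 : 0 ≤ ∏ q ∈ pz z, (1 - (rh P q : ℝ) / (q - 1)) := prod_nonneg hfac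
  have hSg0 : 0 ≤ Sg z P := by rw [hSg]; positivity
  by_cases hdeg : ∃ q ∈ pz z, ∀ j, (q : ℤ) ∣ P j
  · obtain ⟨q, hq, hqP⟩ := hdeg
    have e1 : (pz X).filter (fun p : ℕ => ∀ q ∈ pz z, ¬ (q : ℤ) ∣ vl P p) = ∅ := by
      apply filter_false_of_mem
      intro p _ h
      exact h q hq (dvd_sum fun j _ => (hqP j).mul_right _)
    have e2 : Sg z P = 0 := by
      rw [hSg, prod_eq_zero hq, mul_zero]
      have hq' := (mem_pz.1 hq).2
      have : (1 : ℝ) < q := by exact_mod_cast hq'.one_lt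
      rw [rh_full P q hqP, Nat.cast_sub hq'.one_le, Nat.cast_one, div_self (by linarith), sub_self]
    rw [e1, e2, sum_empty, mul_zero, zero_mul, sub_zero, abs_zero]
    positivity
  · push Not at hdeg
    obtain ⟨Q, hQ⟩ : ∃ Q : ℕ → ℕ → Prop, ∀ p n, Q p n ↔ (p ≤ z ∧ (p : ℤ) ∣ vl P n) := ⟨_, fun _ _ => Iff.rfl⟩
    have hQA : PerA Q (d + 1) := by
      refine ⟨fun p n => ?_, fun p hp => ?_⟩
      · rw [hQ, hQ, vl_per P p n]
      · by_cases hpz : p ≤ z
        · obtain ⟨j, hj⟩ := hdeg p (mem_pz.2 ⟨hpz, hp⟩)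
          have h3 := roots_le P p hp (fun h => hj (h j))
          unfold rhoA
          refine (card_le_card ?_).trans (h3.trans (Nat.le_succ d))
          intro r hr
          simp only [mem_filter, hQ] at hr
          exact mem_filter.2 ⟨hr.1, hr.2.2.2⟩
        · have h3 : rhoA Q p = 0 := by
            unfold rhoA
            rw [card_eq_zero, eq_empty_iff_forall_notMem]
            intro r hr
            simp only [mem_filter, hQ] at hr
            exact hpz hr.2.2.1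
          rw [h3]
          exact Nat.zero_le _
    have hmain := h1 x z hzx1 hzx Q hQA X hX
    have hrho : ∀ q ∈ pz z, rhoA Q q = rh P q := by
      intro q hq
      exact rhoA_eq Q P q (fun r => ⟨fun h => ((hQ _ _).1 h).2, fun h => (hQ _ _).2 ⟨(mem_pz.1 hq).1, h⟩⟩)
    have hPi : ∏ p ∈ pz z, (1 - (rhoA Q p : ℝ) / (p - 1 : ℝ)) = ∏ q ∈ pz z, (1 - (rh P q : ℝ) / (q - 1)) :=
      prod_congr rfl fun q hq => by rw [hrho q hq]
    rw [hPi] at hmain
    set Pq := ∏ q ∈ pz z, (1 - (rh P q : ℝ) / (q - 1)) with hPP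
    set S1 := ∑ n ∈ (Icc 1 X).filter (fun n : ℕ => ∀ p ∈ pz z, ¬ Q p n), ArithmeticFunction.vonMangoldt n with hS1
    set S2 := ∑ p ∈ (pz X).filter (fun p : ℕ => ∀ q ∈ pz z, ¬ (q : ℤ) ∣ vl P p), Real.log p with hS2
    have hS : S2 ≤ S1 ∧ S1 ≤ S2 + 2 * √(x : ℝ) * Real.log x := by
      have e1 : S1 = ∑ n ∈ ((Icc 1 X).filter (fun n : ℕ => ∀ p ∈ pz z, ¬ Q p n)).filter Nat.Prime,
          ArithmeticFunction.vonMangoldt n + ∑ n ∈ ((Icc 1 X).filter (fun n : ℕ => ∀ p ∈ pz z, ¬ Q p n)).filter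
          (fun n => ¬ n.Prime), ArithmeticFunction.vonMangoldt n := (sum_filter_add_sum_filter_not _ _ _).symm
      have e2 : ∑ n ∈ ((Icc 1 X).filter (fun n : ℕ => ∀ p ∈ pz z, ¬ Q p n)).filter Nat.Prime,
          ArithmeticFunction.vonMangoldt n = S2 := by
        rw [hS2]
        have e3 : ((Icc 1 X).filter (fun n : ℕ => ∀ p ∈ pz z, ¬ Q p n)).filter Nat.Prime =
            (pz X).filter (fun p : ℕ => ∀ q ∈ pz z, ¬ (q : ℤ) ∣ vl P p) := by
          ext n
          rw [mem_filter, mem_filter, mem_filter, mem_pz, mem_Icc]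
          constructor
          · rintro ⟨⟨a, b⟩, c⟩
            exact ⟨⟨a.2, c⟩, fun q hq h => b q hq ((hQ _ _).2 ⟨(mem_pz.1 hq).1, h⟩)⟩
          · rintro ⟨⟨a, c⟩, b⟩
            exact ⟨⟨⟨c.one_lt.le, a⟩, fun q hq h => b q hq ((hQ _ _).1 h).2⟩, c⟩
        rw [e3]
        refine sum_congr rfl fun p hp => ?_
        rw [ArithmeticFunction.vonMangoldt_apply_prime (mem_pz.1 (mem_filter.1 hp).1).2]
      have e4 : 0 ≤ ∑ n ∈ ((Icc 1 X).filter (fun n : ℕ => ∀ p ∈ pz z, ¬ Q p n)).filter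
          (fun n => ¬ n.Prime), ArithmeticFunction.vonMangoldt n :=
        sum_nonneg fun _ _ => ArithmeticFunction.vonMangoldt_nonneg
      have e5 : ∑ n ∈ ((Icc 1 X).filter (fun n : ℕ => ∀ p ∈ pz z, ¬ Q p n)).filter
          (fun n => ¬ n.Prime), ArithmeticFunction.vonMangoldt n ≤ 2 * √(x : ℝ) * Real.log x := by
        rcases Nat.eq_zero_or_pos X with hX0 | hX0
        · rw [hX0]
          have : (Icc 1 0 : Finset ℕ) = ∅ := by simp
          rw [this, filter_empty, filter_empty, sum_empty]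
          positivity
        have h6 := Chebyshev.psi_sub_theta_eq_sum_not_prime (X : ℝ)
        have hX1 : (1 : ℝ) ≤ X := by exact_mod_cast hX0
        have h7 := Chebyshev.psi_sub_theta_le hX1
        rw [h6, Nat.floor_natCast] at h7
        have hXx : (X : ℝ) ≤ x := by exact_mod_cast hX
        have h8 : 2 * √(X : ℝ) * Real.log X ≤ 2 * √(x : ℝ) * Real.log x := by
          have a1 := Real.sqrt_le_sqrt hXx
          have a2 := Real.log_le_log (by linarith) hXx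
          have a3 := Real.log_nonneg hX1
          have a4 := Real.sqrt_nonneg (X : ℝ)
          exact mul_le_mul (by linarith) a2 a3 (by positivity)
        refine le_trans (sum_le_sum_of_subset_of_nonneg ?_ fun _ _ _ => ArithmeticFunction.vonMangoldt_nonneg)
          (h7.trans h8)
        intro n hn
        obtain ⟨b1, b2⟩ := mem_filter.1 hn
        have b3 := mem_Icc.1 (mem_filter.1 b1).1
        exact mem_filter.2 ⟨mem_Ioc.2 ⟨by omega, b3.2⟩, b2⟩
      rw [e2] at e1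
      constructor <;> linarith
    have hXx : (X : ℝ) ≤ x := by exact_mod_cast hX
    have hX0 : (0 : ℝ) ≤ X := Nat.cast_nonneg _
    have hVi : (Vz z)⁻¹ ≤ Real.log x ^ C := by
      have h3 := hV z hzN
      have hzr : (3 : ℝ) ≤ z := by exact_mod_cast hz3
      have hlz : 0 < Real.log z := Real.log_pos (by linarith)
      have h4 : (Vz z)⁻¹ ≤ Real.log z ^ C := by
        rw [inv_le_comm₀ hVp (by positivity), ← one_div]
        exact h3
      refine h4.trans (pow_le_pow_left₀ hlz.le (Real.log_le_log (by linarith) (by exact_mod_cast hzx')) _)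
    have hVi0 : 0 < (Vz z)⁻¹ := inv_pos.2 hVp
    have hb : |S2 - X * Pq| ≤ ε * (X * Pq) + (x / Real.log x ^ (C + 2) + 2 * √(x : ℝ) * Real.log x) := by
      have h5 := abs_le.1 hmain
      rw [abs_le]
      have : 0 ≤ 2 * √(x : ℝ) * Real.log x := by positivity
      constructor <;> linarith [hS.1, hS.2, h5.1, h5.2]
    have hb0 : 0 ≤ x / Real.log x ^ (C + 2) + 2 * √(x : ℝ) * Real.log x := by positivity
    have e9 : (Vz z)⁻¹ * S2 - Sg z P * X = (Vz z)⁻¹ * (S2 - X * Pq) := by rw [hSg]; ring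
    rw [e9, abs_mul, abs_of_pos hVi0]
    calc (Vz z)⁻¹ * |S2 - X * Pq| ≤ (Vz z)⁻¹ * (ε * (X * Pq) +
        (x / Real.log x ^ (C + 2) + 2 * √(x : ℝ) * Real.log x)) := mul_le_mul_of_nonneg_left hb hVi0.le
      _ = ε * Sg z P * X + (Vz z)⁻¹ * (x / Real.log x ^ (C + 2) + 2 * √(x : ℝ) * Real.log x) := by rw [hSg]; ring
      _ ≤ ε * Sg z P * x + Real.log x ^ C * (x / Real.log x ^ (C + 2) + 2 * √(x : ℝ) * Real.log x) :=
          add_le_add (mul_le_mul_of_nonneg_left hXx (by positivity)) (mul_le_mul_of_nonneg_right hVi hb0)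
      _ ≤ ε * Sg z P * x + ε * x := by linarith
      _ = ε * (1 + Sg z P) * x := by ring

end Pool.Agent.Helper32K9.QC
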