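import Pool.Agent.Helper32K9.QC.Ev
import Pool.Agent.Helper32K9.QB.Gen3

set_option autoImplicit false

/-! Prime values at the primes for almost all polynomials in a residue class. -/

namespace Pool.Agent.Helper32K9.QC

open Finset Filter
open Pool.Agent.H373R2.T7 (pz Vz mem_pz Vz_pos)
open Pool.Agent.Helper32K9.QB (Cl Fr Rr gen)
open Pool.Agent.Helper32K9.QA (zz)

lemma card_pz (x : ℕ) : (pz x).card = Nat.primeCounting x := by
  rw [Nat.primeCounting, Nat.primeCounting', Nat.count_eq_card_filter_range]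
  congr 1
  ext p
  rw [mem_pz, mem_filter, mem_range]
  constructor
  · rintro ⟨a, b⟩; exact ⟨by omega, b⟩
  · rintro ⟨a, b⟩; exact ⟨by omega, b⟩

/-- the theorem of Chebyshev -/
lemma cheb : ∃ C0 : ℝ, 1 ≤ C0 ∧ ∃ x0 : ℕ, 3 ≤ x0 ∧ ∀ x : ℕ, x0 ≤ x →
    (x : ℝ) / 2 ≤ (pz x).card * Real.log x ∧ ((pz x).card : ℝ) * Real.log x ≤ C0 * x := by
  obtain ⟨C, hC0, hC⟩ := Chebyshev.primeCounting_sub_theta_div_log_isBigO.exists_nonneg
  have h1 := (tendsto_natCast_atTop_atTop (R := ℝ)).eventually hC.bound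
  have hlog : Tendsto (fun n : ℕ => Real.log n) atTop atTop := Real.tendsto_log_atTop.comp tendsto_natCast_atTop_atTop
  have h2 := (tendsto_natCast_atTop_atTop (R := ℝ)).eventually
    (Real.isLittleO_log_id_atTop.def (show (0 : ℝ) < 1 / 20 by norm_num))
  obtain ⟨x0, h⟩ := ((h1.and (hlog.eventually_ge_atTop 1)).and h2).exists_forall_of_atTop
  refine ⟨Real.log 4 + C + 1, by have := Real.log_nonneg (show (1 : ℝ) ≤ 4 by norm_num); linarith, max x0 3,
    le_max_right _ _, fun x hx => ?_⟩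
  obtain ⟨⟨h1, hL⟩, h2⟩ := h x ((le_max_left _ _).trans hx)
  have hx3 : (3 : ℝ) ≤ x := by exact_mod_cast (le_max_right _ _).trans hx
  have hLp : 0 < Real.log x := by linarith
  rw [card_pz]
  constructor
  · have h3 := Chebyshev.psi_ge x
    have h4 := Chebyshev.psi_le_primeCounting_mul_log x
    refine le_trans ?_ (h3.trans h4)
    rw [id_eq, Real.norm_of_nonneg hLp.le, Real.norm_of_nonneg (by linarith)] at h2
    have h5 : Real.log ((x : ℝ) + 1) ≤ Real.log x + 1 := by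
      have : (x : ℝ) + 1 ≤ x * Real.exp 1 := by
        have := Real.add_one_le_exp (1 : ℝ)
        nlinarith
      have h6 := Real.log_le_log (by linarith) this
      rwa [Real.log_mul (by linarith) (Real.exp_pos 1).ne', Real.log_exp] at h6
    have h7 := Real.log_two_gt_d9
    have h8 : Real.log ((x : ℝ) + 1) ≤ (1 / 10) * x := by linarith
    nlinarith
  · rw [Nat.floor_natCast, Real.norm_of_nonneg (show 0 ≤ (x : ℝ) / Real.log x ^ 2 by positivity), Real.norm_eq_abs] at h1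
    have h3 := (abs_le.1 h1).2
    have h4 := Chebyshev.theta_le_log4_mul_x (show (0 : ℝ) ≤ x by linarith)
    have h5 : (Nat.primeCounting x : ℝ) ≤ Chebyshev.theta x / Real.log x + C * (x / Real.log x ^ 2) := by linarith
    have h6 := mul_le_mul_of_nonneg_right h5 hLp.le
    have e : (Chebyshev.theta x / Real.log x + C * (x / Real.log x ^ 2)) * Real.log x =
        Chebyshev.theta x + C * x / Real.log x := by field_simp
    rw [e] at h6
    have h7 : C * x / Real.log x ≤ C * x := div_le_self (by positivity) hL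
    nlinarith

lemma filter_card_le {α : Type} [DecidableEq α] (S : Finset α) (J : Finset ℕ) (E : ℕ → α → Prop) (F : α → Prop)
    [∀ j, DecidablePred (E j)] [DecidablePred F] (h : ∀ a ∈ S, F a → ∃ j ∈ J, E j a) (δ : ℝ)
    (hE : ∀ j ∈ J, ((S.filter (E j)).card : ℝ) ≤ δ) : ((S.filter F).card : ℝ) ≤ J.card * δ := by
  have h1 : S.filter F ⊆ J.biUnion (fun j => S.filter (E j)) := by
    intro a ha
    obtain ⟨h2, h3⟩ := mem_filter.1 ha
    obtain ⟨j, hj, h4⟩ := h a h2 h3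
    exact mem_biUnion.2 ⟨j, hj, mem_filter.2 ⟨h2, h4⟩⟩
  have h2 : ((S.filter F).card : ℝ) ≤ ∑ j ∈ J, ((S.filter (E j)).card : ℝ) := by
    exact_mod_cast (card_le_card h1).trans card_biUnion_le
  refine h2.trans ((sum_le_sum hE).trans (le_of_eq ?_))
  rw [sum_const, nsmul_eq_mul]

lemma pts (x : ℕ) (Y : ℝ) (hx : (x : ℝ) ≤ Y) : (∀ m ∈ pz x, Function.Injective (fun _ : Fin 1 => m) ∧
      ∀ _a : Fin 1, 1 ≤ m ∧ (m : ℝ) ≤ Y) ∧
    ∀ m ∈ pz x, ((pz x).filter (fun m' => ¬ Pool.Agent.Helper32K9.QB.Apart (fun _ : Fin 1 => m) (fun _ : Fin 1 => m'))).card ≤ 1 := by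
  constructor
  · intro m hm
    refine ⟨fun a b _ => Subsingleton.elim a b, fun _ => ⟨(mem_pz.1 hm).2.one_lt.le, ?_⟩⟩
    refine le_trans ?_ hx
    exact_mod_cast (mem_pz.1 hm).1
  · intro k hk
    apply card_le_one.2
    have key : ∀ a, a ∈ (pz x).filter (fun m' => ¬ Pool.Agent.Helper32K9.QB.Apart (fun _ : Fin 1 => k)
        (fun _ : Fin 1 => m')) → a = k := by
      intro a ha
      obtain ⟨ha1, ha2⟩ := Finset.mem_filter.1 ha
      unfold Pool.Agent.Helper32K9.QB.Apart at ha2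
      push Not at ha2
      obtain ⟨_, _, h1⟩ := ha2
      exact h1.symm
    intro a ha b hb
    rw [key a ha, key b hb]

/-- the weighted number of the primes up to `y` with prime value -/
noncomputable def FF {d : ℕ} (H y : ℕ) (P : Fin (d + 1) → ℤ) : ℝ :=
  Real.log H * ∑ p ∈ (pz y).filter (fun p : ℕ => (vl P p).natAbs.Prime), Real.log p

/-- the weighted number of the primes up to `y` with rough value -/
noncomputable def GG {d : ℕ} (z y : ℕ) (P : Fin (d + 1) → ℤ) : ℝ :=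
  (Vz z)⁻¹ * ∑ p ∈ (pz y).filter (fun p : ℕ => ∀ q ∈ pz z, ¬ (q : ℤ) ∣ vl P p), Real.log p

lemma FF_mono {d : ℕ} (H y y' : ℕ) (hH : 1 ≤ H) (h : y ≤ y') (P : Fin (d + 1) → ℤ) : FF H y P ≤ FF H y' P := by
  unfold FF
  refine mul_le_mul_of_nonneg_left ?_ (Real.log_nonneg (by exact_mod_cast hH))
  refine sum_le_sum_of_subset_of_nonneg ?_ fun p _ _ => Real.log_natCast_nonneg p
  intro p hp
  obtain ⟨h1, h2⟩ := mem_filter.1 hp
  exact mem_filter.2 ⟨mem_pz.2 ⟨(mem_pz.1 h1).1.trans h, (mem_pz.1 h1).2⟩, h2⟩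

lemma FF_eq {d : ℕ} (H x y : ℕ) (hy : y ≤ x) (P : Fin (d + 1) → ℤ) :
    ∑ p ∈ pz x, (if p ≤ y then Real.log p else 0) * Fr (Real.log H) (fun _ : Fin 1 => p) P = FF H y P := by
  classical
  unfold FF
  rw [mul_sum, sum_filter]
  have e : pz y = (pz x).filter (fun p => p ≤ y) := by
    ext p
    rw [mem_filter, mem_pz, mem_pz]
    constructor
    · rintro ⟨a, b⟩; exact ⟨⟨a.trans hy, b⟩, a⟩
    · rintro ⟨a, b⟩; exact ⟨b, a.2⟩
  rw [e, sum_filter]
  refine sum_congr rfl fun p _ => ?_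
  rw [Pool.Agent.Helper32K9.QB.Fr_eq, pow_one]
  by_cases h1 : p ≤ y
  · rw [if_pos h1, if_pos h1]
    by_cases h2 : (vl P p).natAbs.Prime
    · rw [if_pos h2, if_pos (show ∀ _i : Fin 1, (Pool.Agent.Helper82K9.PR.pv P p).natAbs.Prime from fun _ => h2), mul_comm]
    · rw [if_neg h2, if_neg (show ¬ ∀ _i : Fin 1, (Pool.Agent.Helper82K9.PR.pv P p).natAbs.Prime from fun h => h2 (h 0)),
        mul_zero]
  · rw [if_neg h1, if_neg h1, zero_mul]

lemma GG_eq {d : ℕ} (z x y : ℕ) (hy : y ≤ x) (P : Fin (d + 1) → ℤ) :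
    ∑ p ∈ pz x, (if p ≤ y then Real.log p else 0) * Rr z (fun _ : Fin 1 => p) P = GG z y P := by
  classical
  unfold GG
  rw [mul_sum, sum_filter]
  have e : pz y = (pz x).filter (fun p => p ≤ y) := by
    ext p
    rw [mem_filter, mem_pz, mem_pz]
    constructor
    · rintro ⟨a, b⟩; exact ⟨⟨a.trans hy, b⟩, a⟩
    · rintro ⟨a, b⟩; exact ⟨b, a.2⟩
  rw [e, sum_filter]
  refine sum_congr rfl fun p _ => ?_
  rw [Pool.Agent.Helper32K9.QB.Rr_eq]
  have e2 : ∏ q ∈ (Icc 1 z).filter Nat.Prime, ((1 - 1 / (q : ℝ)) ^ 1)⁻¹ = (Vz z)⁻¹ := by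
    unfold Vz
    rw [← prod_inv_distrib]
    exact prod_congr rfl fun q _ => by rw [pow_one]
  rw [e2]
  by_cases h1 : p ≤ y
  · rw [if_pos h1, if_pos h1]
    by_cases h2 : ∀ q ∈ pz z, ¬ (q : ℤ) ∣ vl P p
    · rw [if_pos h2, if_pos (show ∀ _i : Fin 1, ∀ q ∈ (Icc 1 z).filter Nat.Prime,
        ¬ (q : ℤ) ∣ Pool.Agent.Helper82K9.PR.pv P p from fun _ => h2), mul_comm]
    · rw [if_neg h2, if_neg (show ¬ ∀ _i : Fin 1, ∀ q ∈ (Icc 1 z).filter Nat.Prime,
        ¬ (q : ℤ) ∣ Pool.Agent.Helper82K9.PR.pv P p from fun h => h2 (h 0)), mul_zero]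
  · rw [if_neg h1, if_neg h1, zero_mul]

/-- interpolation -/
lemma interp (F : ℕ → ℝ) (hF : Monotone F) (S R : ℝ) (hS : 0 ≤ S) (J x : ℕ) (hJ : 1 ≤ J) (hJx : J ≤ x)
    (h : ∀ j ≤ J + 1, |F (min (j * x / J) x) - S * (min (j * x / J) x : ℕ)| ≤ R) (y : ℕ) (hy : y ≤ x) :
    |F y - S * y| ≤ R + 2 * S * x / J := by
  set j := y * J / x with hj
  have hx0 : 0 < x := by omega
  have h1 : j * x ≤ y * J := Nat.div_mul_le_self _ _
  have h2 : y * J < (j + 1) * x := by
    have := Nat.lt_mul_div_succ (y * J) hx0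
    rw [← hj] at this
    linarith
  have hjJ : j ≤ J := by
    rw [hj]
    refine (Nat.div_le_div_right (Nat.mul_le_mul_right J hy)).trans ?_
    rw [Nat.mul_div_cancel_left _ hx0]
  have a1 : j * x / J ≤ y := by
    have := Nat.div_le_div_right (c := J) h1
    rwa [Nat.mul_div_cancel _ (by omega)] at this
  have a2 : y ≤ (j + 1) * x / J := by
    rw [Nat.le_div_iff_mul_le (by omega)]
    exact h2.le
  have m1 : min (j * x / J) x = j * x / J := min_eq_left (a1.trans hy)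
  have hlow := h j (by omega)
  rw [m1] at hlow
  have hup := h (j + 1) (by omega)
  have m2 : y ≤ min ((j + 1) * x / J) x := le_min a2 hy
  have f1 := hF a1
  have f2 := hF m2
  have hJr : (1 : ℝ) ≤ J := by exact_mod_cast hJ
  have hxr : (J : ℝ) ≤ x := by exact_mod_cast hJx
  have b1 : ((min ((j + 1) * x / J) x : ℕ) : ℝ) ≤ (j + 1) * x / J := by
    have : ((min ((j + 1) * x / J) x : ℕ) : ℝ) ≤ (((j + 1) * x / J : ℕ) : ℝ) := by exact_mod_cast min_le_left _ _
    refine this.trans (Nat.cast_div_le.trans (le_of_eq ?_))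
    push_cast; ring
  have b2 : (j : ℝ) * x / J - 1 ≤ ((j * x / J : ℕ) : ℝ) := by
    have := (Nat.lt_floor_add_one ((j : ℝ) * x / J)).le
    have e : ⌊(j : ℝ) * x / J⌋₊ = j * x / J := by
      have := Nat.floor_div_natCast ((j : ℝ) * x) J
      rw [this]
      congr 1
      have : (j : ℝ) * x = ((j * x : ℕ) : ℝ) := by push_cast; ring
      rw [this, Nat.floor_natCast]
    rw [e] at this
    linarith
  have b3 : (1 : ℝ) ≤ x / J := by rw [le_div_iff₀ (by linarith)]; linarith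
  have hgap : ((min ((j + 1) * x / J) x : ℕ) : ℝ) - ((j * x / J : ℕ) : ℝ) ≤ 2 * x / J := by
    have e : ((j : ℝ) + 1) * x / J = j * x / J + x / J := by ring
    have e2 : 2 * (x : ℝ) / J = x / J + x / J := by ring
    linarith
  have c1 : ((j * x / J : ℕ) : ℝ) ≤ y := by exact_mod_cast a1
  have c2 : (y : ℝ) ≤ ((min ((j + 1) * x / J) x : ℕ) : ℝ) := by exact_mod_cast m2
  have g1 : S * (y - ((j * x / J : ℕ) : ℝ)) ≤ S * (2 * x / J) := mul_le_mul_of_nonneg_left (by linarith) hS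
  have g2 : S * (((min ((j + 1) * x / J) x : ℕ) : ℝ) - y) ≤ S * (2 * x / J) := mul_le_mul_of_nonneg_left (by linarith) hS
  have e3 : S * (2 * (x : ℝ) / J) = 2 * S * x / J := by ring
  rw [abs_le] at hlow hup ⊢
  constructor <;> nlinarith [hlow.1, hlow.2, hup.1, hup.2]


lemma Sg_nonneg {d : ℕ} (z : ℕ) (P : Fin (d + 1) → ℤ) : 0 ≤ Sg z P := by
  unfold Sg
  refine prod_nonneg fun q hq => ?_
  have hq' := (mem_pz.1 hq).2
  have h2 : (2 : ℝ) ≤ q := by exact_mod_cast hq'.two_le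
  have h1 := (Pool.Agent.H373R2.T7.facA (fun p n : ℕ => (p : ℤ) ∣ vl P n) q hq').1
  rw [rhoA_eq _ P q (fun _ => Iff.rfl)] at h1
  refine div_nonneg h1 ?_
  rw [sub_nonneg, div_le_one (by linarith)]
  linarith

lemma params (T K xe m : ℕ) (hT : 1 ≤ T) : ∃ H1 : ℕ, ∀ H : ℕ, H1 ≤ H → 1 ≤ Real.log H ∧ 1 ≤ Real.log (Real.log H) ∧
    xe ≤ zz T H ∧ ((zz T H : ℕ) : ℝ) ^ K ≤ Real.log H ∧ (m : ℝ) ≤ Real.log H := by
  have hlog : Tendsto (fun n : ℕ => Real.log n) atTop atTop := Real.tendsto_log_atTop.comp tendsto_natCast_atTop_atTop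
  have hll : Tendsto (fun n : ℕ => Real.log (Real.log n)) atTop atTop := Real.tendsto_log_atTop.comp hlog
  have h3 := hlog.eventually ((Real.isLittleO_pow_log_id_atTop (n := K)).def
    (show (0 : ℝ) < 1 / (2 * T) ^ K by positivity))
  obtain ⟨H1, h⟩ := ((hlog.eventually_ge_atTop (max 1 m)).and ((hll.eventually_ge_atTop (max 1 xe)).and h3)).exists_forall_of_atTop
  refine ⟨H1, fun H hH => ?_⟩
  obtain ⟨a, b, c⟩ := h H hH
  have hL1 : 1 ≤ Real.log H := (le_max_left _ _).trans a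
  have hl1 : 1 ≤ Real.log (Real.log H) := (le_max_left _ _).trans b
  have hxe : (xe : ℝ) ≤ Real.log (Real.log H) := (le_max_right _ _).trans b
  have hc := Nat.ceil_lt_add_one (show 0 ≤ Real.log (Real.log H) by linarith)
  have hcl := Nat.le_ceil (Real.log (Real.log H))
  have hTr : (1 : ℝ) ≤ T := by exact_mod_cast hT
  have hz1 : ((zz T H : ℕ) : ℝ) = T * (⌈Real.log (Real.log H)⌉₊ : ℝ) := by
    unfold zz
    push_cast
    rfl
  refine ⟨hL1, hl1, ?_, ?_, (le_max_right _ _).trans a⟩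
  · have : (xe : ℝ) ≤ ((zz T H : ℕ) : ℝ) := by
      rw [hz1]
      have : (⌈Real.log (Real.log H)⌉₊ : ℝ) ≤ T * (⌈Real.log (Real.log H)⌉₊ : ℝ) :=
        le_mul_of_one_le_left (by positivity) hTr
      linarith
    exact_mod_cast this
  · have h1 : ((zz T H : ℕ) : ℝ) ≤ 2 * T * Real.log (Real.log H) := by
      rw [hz1]
      have := mul_le_mul_of_nonneg_left (show (⌈Real.log (Real.log H)⌉₊ : ℝ) ≤ 2 * Real.log (Real.log H) by linarith)
        (show (0 : ℝ) ≤ T by linarith)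
      linarith
    have h2 := pow_le_pow_left₀ (Nat.cast_nonneg _) h1 K
    refine h2.trans ?_
    rw [id_eq, Real.norm_of_nonneg (by positivity), Real.norm_of_nonneg (by positivity)] at c
    rw [mul_pow]
    have h4 := mul_le_mul_of_nonneg_left c (show (0 : ℝ) ≤ (2 * T) ^ K by positivity)
    refine h4.trans (le_of_eq ?_)
    have : ((2 : ℝ) * T) ^ K ≠ 0 := by positivity
    field_simp

open Classical in
theorem main (d B : ℕ) (hd : 1 ≤ d) (ε : ℝ) (hε : 0 < ε) : ∃ T₀ : ℕ, ∀ T : ℕ, T₀ ≤ T → ∃ A : ℕ, ∀ H : ℕ, A ≤ H →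
    ∀ x : ℕ, A * Real.log H * Real.log (Real.log H) ≤ x → (x : ℝ) ≤ Real.log H ^ B → ∀ P₀ : Fin (d + 1) → ℤ,
    (((Cl d H (primorial (zz T H)) P₀).filter (fun P => ∃ y ≤ x, ε * (1 + Sg (zz T H) P₀) * x <
      |FF H y P - Sg (zz T H) P₀ * y|)).card : ℝ) ≤ ε * (Cl d H (primorial (zz T H)) P₀).card := by
  obtain ⟨C0, hC01, xc, hxc3, hcheb⟩ := cheb
  obtain ⟨J0, hJ0⟩ := exists_nat_ge (4 / ε)
  obtain ⟨J, hJdef⟩ : ∃ J, J = J0 + 1 := ⟨_, rfl⟩
  have hJ : 1 ≤ J := by omega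
  have hJr : (1 : ℝ) ≤ J := by exact_mod_cast hJ
  have hJε : 2 / (J : ℝ) ≤ ε / 2 := by
    rw [div_le_iff₀ (by linarith)]
    have h1 : 4 / ε ≤ J := by rw [hJdef]; push_cast; linarith
    rw [div_le_iff₀ hε] at h1
    linarith
  have hden : 0 < 2 * (C0 + 3) + ((J : ℝ) + 2) := by linarith
  obtain ⟨δ, hδ⟩ : ∃ δ : ℝ, δ = min 1 (ε / (2 * (C0 + 3) + (J + 2))) := ⟨_, rfl⟩
  have hδ0 : 0 < δ := by rw [hδ]; exact lt_min one_pos (div_pos hε hden)
  have hδ1 : δ ≤ 1 := by rw [hδ]; exact min_le_left _ _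
  have hδε : δ * (2 * (C0 + 3) + (J + 2)) ≤ ε := by
    have : δ ≤ ε / (2 * (C0 + 3) + (J + 2)) := by rw [hδ]; exact min_le_right _ _
    rwa [le_div_iff₀ hden] at this
  have hδ2 : δ * (C0 + 3) ≤ ε / 2 := by nlinarith
  have hδ3 : ((J : ℝ) + 2) * δ ≤ ε := by nlinarith
  obtain ⟨K, hK, xe, hev⟩ := ev d δ hδ0
  obtain ⟨T₀, hgen⟩ := gen 1 d B 1 (by omega) δ hδ0
  refine ⟨max T₀ 1, fun T hT => ?_⟩
  obtain ⟨A1, hA1⟩ := hgen T ((le_max_left _ _).trans hT)
  have hT1 : 1 ≤ T := (le_max_right _ _).trans hT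
  obtain ⟨H1, hH1⟩ := params T K xe (max xc J) hT1
  refine ⟨max (max A1 H1) (2 * (B + 1) * A1 + 1), fun H hH x hx hxB P₀ => ?_⟩
  have hHA : A1 ≤ H := (le_max_left _ _).trans ((le_max_left _ _).trans hH)
  have hHH : H1 ≤ H := (le_max_right _ _).trans ((le_max_left _ _).trans hH)
  obtain ⟨hL1, hl1, hze, hzK, hm⟩ := hH1 H hHH
  have hAr : (2 * (B + 1) * A1 + 1 : ℝ) ≤ ((max (max A1 H1) (2 * (B + 1) * A1 + 1) : ℕ) : ℝ) := by
    have : ((2 * (B + 1) * A1 + 1 : ℕ) : ℝ) ≤ ((max (max A1 H1) (2 * (B + 1) * A1 + 1) : ℕ) : ℝ) := by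
      exact_mod_cast le_max_right _ _
    push_cast at this ⊢
    linarith
  have hxA : (2 * (B + 1) * A1 + 1 : ℝ) * Real.log H * Real.log (Real.log H) ≤ x := by
    refine le_trans ?_ hx
    exact mul_le_mul_of_nonneg_right (mul_le_mul_of_nonneg_right hAr (by linarith)) (by linarith)
  have hLl : Real.log H ≤ Real.log H * Real.log (Real.log H) := le_mul_of_one_le_right (by linarith) hl1
  have hxL : Real.log H ≤ x := by
    have : 0 ≤ (2 * (B + 1) * A1 : ℝ) * (Real.log H * Real.log (Real.log H)) := by positivity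
    nlinarith
  have hxm : max xc J ≤ x := by exact_mod_cast hm.trans hxL
  have hxc : xc ≤ x := (le_max_left _ _).trans hxm
  have hJx : J ≤ x := (le_max_right _ _).trans hxm
  have hx3 : 3 ≤ x := hxc3.trans hxc
  have hx3r : (3 : ℝ) ≤ x := by exact_mod_cast hx3
  have hLx : 0 < Real.log x := Real.log_pos (by linarith)
  obtain ⟨hch1, hch2⟩ := hcheb x hxc
  have hzx : zz T H ^ K ≤ x := by
    have : ((zz T H ^ K : ℕ) : ℝ) ≤ x := by push_cast; exact hzK.trans hxL
    exact_mod_cast this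
  have hM : (A1 : ℝ) * Real.log H ^ 1 ≤ (pz x).card := by
    rw [pow_one]
    have h1 : Real.log x ≤ (B + 1) * Real.log (Real.log H) := by
      have := Real.log_le_log (by linarith) hxB
      rw [Real.log_pow] at this
      linarith
    have h2 : (x : ℝ) / 2 ≤ (pz x).card * ((B + 1) * Real.log (Real.log H)) :=
      hch1.trans (mul_le_mul_of_nonneg_left h1 (Nat.cast_nonneg _))
    have h3 : ((B : ℝ) + 1) * A1 * Real.log H * Real.log (Real.log H) ≤ (pz x).card * ((B + 1) * Real.log (Real.log H)) := by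
      refine le_trans ?_ h2
      have : 0 ≤ Real.log H * Real.log (Real.log H) := by positivity
      nlinarith
    have h4 : (0 : ℝ) < (B + 1) * Real.log (Real.log H) := by positivity
    have h5 : (A1 * Real.log H) * (((B : ℝ) + 1) * Real.log (Real.log H)) ≤
        (pz x).card * ((B + 1) * Real.log (Real.log H)) := by
      refine le_trans (le_of_eq ?_) h3
      ring
    exact le_of_mul_le_mul_right h5 h4
  obtain ⟨hpt1, hpt2⟩ := pts x _ hxB
  obtain ⟨z, hz⟩ : ∃ z, z = zz T H := ⟨_, rfl⟩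
  have hgenH := hA1 H hHA ℕ (pz x) (fun m _ => m) hpt1 hpt2 hM
  rw [← hz] at hgenH hze hzx ⊢
  have hS0 := Sg_nonneg z P₀
  obtain ⟨S, hS⟩ : ∃ S, S = Sg z P₀ := ⟨_, rfl⟩
  rw [← hS] at hS0
  have hH1' : 1 ≤ H := by
    by_contra hc
    have : H = 0 := by omega
    rw [this] at hL1
    norm_num at hL1
  obtain ⟨c, hc⟩ : ∃ c : ℕ → ℕ → ℝ, ∀ j p, c j p = (if p ≤ min (j * x / J) x then Real.log p else 0) / Real.log x :=
    ⟨_, fun _ _ => rfl⟩
  have hc0 : ∀ j p, 0 ≤ c j p := by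
    intro j p
    rw [hc]
    refine div_nonneg ?_ hLx.le
    split_ifs
    · exact Real.log_natCast_nonneg p
    · exact le_rfl
  have hc1 : ∀ j p, |c j p| ≤ 1 := by
    intro j p
    rw [abs_of_nonneg (hc0 j p), hc, div_le_one hLx]
    split_ifs with h
    · rcases Nat.eq_zero_or_pos p with hp | hp
      · rw [hp, Nat.cast_zero, Real.log_zero]; exact hLx.le
      · exact Real.log_le_log (by exact_mod_cast hp) (by exact_mod_cast h.trans (min_le_right _ _))
    · exact hLx.le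
  have key := filter_card_le (Cl d H (primorial z) P₀) (range (J + 2))
    (fun j P => ¬ |∑ m ∈ pz x, c j m * (Fr (Real.log H) (fun _ : Fin 1 => m) P - Rr z (fun _ : Fin 1 => m) P₀)| ≤
      δ * ((pz x).card + ∑ m ∈ pz x, |c j m| * Rr z (fun _ : Fin 1 => m) P₀))
    (fun P => ∃ y ≤ x, ε * (1 + Sg z P₀) * x < |FF H y P - Sg z P₀ * y|) ?_ (δ * (Cl d H (primorial z) P₀).card)
    (fun j _ => hgenH (c j) (hc1 j) P₀)
  · refine key.trans ?_
    rw [card_range, ← mul_assoc]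
    refine mul_le_mul_of_nonneg_right ?_ (Nat.cast_nonneg _)
    push_cast
    linarith
  · intro P _ ⟨y, hy, hbad⟩
    by_contra hno
    push Not at hno
    rw [← hS] at hbad
    apply absurd hbad
    rw [not_lt]
    have hR : ∀ j ≤ J + 1, |FF H (min (j * x / J) x) P - S * (min (j * x / J) x : ℕ)| ≤ δ * (C0 + 3) * (1 + S) * x := by
      intro j hj
      have h1 := hno j (mem_range.2 (by omega))
      obtain ⟨Y, hY⟩ : ∃ Y, Y = min (j * x / J) x := ⟨_, rfl⟩
      have hYx : Y ≤ x := by rw [hY]; exact min_le_right _ _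
      have hYr : (Y : ℝ) ≤ x := by exact_mod_cast hYx
      rw [← hY]
      have e1 : ∑ m ∈ pz x, c j m * (Fr (Real.log H) (fun _ : Fin 1 => m) P - Rr z (fun _ : Fin 1 => m) P₀) =
          (FF H Y P - GG z Y P₀) / Real.log x := by
        rw [← FF_eq H x Y hYx P, ← GG_eq z x Y hYx P₀, ← sum_sub_distrib, sum_div]
        refine sum_congr rfl fun m _ => ?_
        rw [hc, ← hY]
        ring
      have e2 : ∑ m ∈ pz x, |c j m| * Rr z (fun _ : Fin 1 => m) P₀ = GG z Y P₀ / Real.log x := by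
        rw [← GG_eq z x Y hYx P₀, sum_div]
        refine sum_congr rfl fun m _ => ?_
        rw [abs_of_nonneg (hc0 j m), hc, ← hY]
        ring
      rw [e1, e2, abs_div, abs_of_pos hLx, div_le_iff₀ hLx] at h1
      have e3 : δ * (((pz x).card : ℝ) + GG z Y P₀ / Real.log x) * Real.log x =
          δ * ((pz x).card * Real.log x + GG z Y P₀) := by field_simp
      rw [e3] at h1
      have h2 := hev x z hze hzx P₀ Y hYx
      have h2' : |GG z Y P₀ - S * Y| ≤ δ * (1 + S) * x := by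
        rw [hS]
        exact h2
      have hx0 : (0 : ℝ) ≤ x := by linarith
      have h3 : GG z Y P₀ ≤ (1 + S) * x + (1 + S) * x := by
        have a := (abs_le.1 h2').2
        have b : S * Y ≤ (1 + S) * x := by nlinarith [mul_le_mul_of_nonneg_left hYr hS0]
        have c : δ * (1 + S) * x ≤ (1 + S) * x := by
          have : 0 ≤ (1 + S) * x := by positivity
          nlinarith
        linarith
      have h4 : ((pz x).card : ℝ) * Real.log x ≤ C0 * ((1 + S) * x) := by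
        refine hch2.trans (mul_le_mul_of_nonneg_left ?_ (by linarith))
        nlinarith
      have h5 : |FF H Y P - GG z Y P₀| ≤ δ * (C0 * ((1 + S) * x) + ((1 + S) * x + (1 + S) * x)) :=
        h1.trans (mul_le_mul_of_nonneg_left (add_le_add h4 h3) hδ0.le)
      calc |FF H Y P - S * Y| = |(FF H Y P - GG z Y P₀) + (GG z Y P₀ - S * Y)| := by ring_nf
        _ ≤ |FF H Y P - GG z Y P₀| + |GG z Y P₀ - S * Y| := abs_add_le _ _
        _ ≤ δ * (C0 * ((1 + S) * x) + ((1 + S) * x + (1 + S) * x)) + δ * (1 + S) * x := add_le_add h5 h2'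
        _ = δ * (C0 + 3) * (1 + S) * x := by ring
    have hfin := interp (fun y => FF H y P) (fun a b hab => FF_mono H a b hH1' hab P) S _ hS0 J x hJ hJx hR y hy
    refine hfin.trans ?_
    have hx0 : (0 : ℝ) ≤ x := by linarith
    have i1 : δ * (C0 + 3) * (1 + S) * x ≤ ε / 2 * ((1 + S) * x) := by
      have := mul_le_mul_of_nonneg_right hδ2 (show 0 ≤ (1 + S) * x by positivity)
      linarith
    have i2 : 2 * S * x / J ≤ ε / 2 * ((1 + S) * x) := by
      have a : 2 * S * x / J = 2 / J * (S * x) := by ring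
      rw [a]
      have b : S * x ≤ (1 + S) * x := by nlinarith
      exact (mul_le_mul_of_nonneg_right hJε (by positivity)).trans (mul_le_mul_of_nonneg_left b (by positivity))
    linarith

end Pool.Agent.Helper32K9.QC
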